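import Pool.Agent.Helper96.LC.Stmts

set_option autoImplicit false

namespace Pool.Agent.Helper96.LC

open Pool.Agent.Helper44.Lag

theorem st_PATH : ST_PATH := by
  intro p q hq hp hcop Λ
  have hp0 : (p : ℝ) ≠ 0 := by exact_mod_cast hp.ne'
  induction Λ with
  | zero =>
    intro e he _
    refine ⟨0, ?_⟩
    intro v _
    refine ⟨v, fun _ => v, rfl, ?_⟩
    intro x n hn
    have hn0 : n = 0 := by omega
    subst hn0
    rw [he]; simp
  | succ Λ ih =>
    intro e he hs
    obtain ⟨ρ', hρ'⟩ := ih (fun n => e (n + 1)) he (fun n hn => hs (n + 1) (by omega))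
    obtain ⟨s, hs0⟩ := hs 0 (by omega)
    obtain ⟨ρ, hρ⟩ := class_back p q hcop Λ ρ' s
    refine ⟨ρ, ?_⟩
    intro v hv
    obtain ⟨v1, hv1, hv1c⟩ := hρ v hv
    obtain ⟨v', z, hz0, hz⟩ := hρ' v1 hv1c
    have hv1r : (q:ℝ) * v1 = p * v + s := by exact_mod_cast hv1
    refine ⟨v', fun n => Nat.casesOn n v (fun k => z k), rfl, ?_⟩
    intro x n hn
    cases n with
    | zero =>
      have h1 := hz x 0 (by omega)
      rw [hz0] at h1
      simp only [Nat.sub_zero, zero_add] at h1 hs0 ⊢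
      show ((q:ℝ) / p) ^ (Λ + 1) * x - (v : ℝ) = e 0 + ((q:ℝ) / p) ^ (Λ + 1) * (x - v')
      rw [pow_succ]
      have e1 : (q:ℝ) / p * v1 = v + s / p := by
        field_simp; linarith
      have e2 : (q:ℝ) / p * e 1 = e 0 - s / p := by
        field_simp; linarith
      linear_combination ((q:ℝ) / p) * h1 + e1 + e2
    | succ k =>
      have h1 := hz x k (by omega)
      rw [show Λ + 1 - (k + 1) = Λ - k by omega]
      exact h1

end Pool.Agent.Helper96.LC
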